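import Pool.Agent.U220.RD.Stm

/-! Project RD, package LINK: the generic point. -/

set_option autoImplicit false

namespace Pool.Agent.U49.RD

open MvPolynomial Pool.Agent.U220.RD

section

variable {N m : ℕ} {a : Fin N → Fin m → ℂ} {e : Fin N} {B : Set (Fin N)}

/-- the polynomial ring -/
abbrev PR (e : Fin N) : Type := MvPolynomial {j : Fin N // j ≠ e} ℂ

/-- the coordinates: `1` at `e` -/
noncomputable def Y (e : Fin N) (j : Fin N) : PR e := if h : j = e then 1 else X ⟨j, h⟩

/-- the linear map `t` with polynomial values -/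
noncomputable def tR (e : Fin N) (bas : Module.Basis B ℂ (Fin m → ℂ)) : (Fin m → ℂ) →ₗ[ℂ] PR e :=
  bas.constr ℂ (fun b => Y e b)

open Classical in
/-- the relation with polynomial values -/
noncomputable def zR (a : Fin N → Fin m → ℂ) (e : Fin N) (bas : Module.Basis B ℂ (Fin m → ℂ))
    (i : Fin N) : PR e :=
  if h : i ∈ B then - ∑ j ∈ Finset.univ.filter (fun j => j ∉ B), (bas.coord ⟨i, h⟩ (a j)) • Y e j
  else Y e i

theorem tR_bas (bas : Module.Basis B ℂ (Fin m → ℂ)) (hb : ∀ b : B, bas b = a b) (b : Fin N)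
    (h : b ∈ B) : tR e bas (a b) = Y e b := by
  have h1 := hb ⟨b, h⟩
  rw [tR, ← h1, Module.Basis.constr_basis]

theorem split_sum {M : Type} [AddCommGroup M] (f : Fin N → M) [DecidablePred (· ∈ B)]
    [Fintype B] :
    ∑ i, f i = (∑ b : B, f b) + ∑ j ∈ Finset.univ.filter (fun j => j ∉ B), f j := by
  rw [← Finset.sum_filter_add_sum_filter_not Finset.univ (fun j => j ∈ B) f]
  congr 1
  exact (Finset.sum_subtype _ (by simp) _)

open Classical in
theorem rel_R (bas : Module.Basis B ℂ (Fin m → ℂ)) (hb : ∀ b : B, bas b = a b)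
    (ψ : (Fin m → ℂ) →ₗ[ℂ] ℂ) : ∑ i, ψ (a i) • zR a e bas i = 0 := by
  rw [split_sum (B := B)]
  have h1 : ∀ b : B, zR a e bas b =
      - ∑ j ∈ Finset.univ.filter (fun j => j ∉ B), (bas.coord b (a j)) • Y e j := by
    intro b
    rw [zR, dif_pos b.2]
  have h2 : ∀ j ∈ Finset.univ.filter (fun j => j ∉ B), ψ (a j) • zR a e bas j =
      ψ (a j) • Y e j := by
    intro j hj
    rw [zR, dif_neg (Finset.mem_filter.1 hj).2]
  rw [Finset.sum_congr rfl h2]
  simp_rw [h1, smul_neg, Finset.smul_sum, Finset.sum_neg_distrib]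
  rw [Finset.sum_comm, neg_add_eq_zero]
  refine Finset.sum_congr rfl fun j _ => ?_
  have h3 : ψ (a j) = ∑ b : B, ψ (a b) * bas.coord b (a j) := by
    conv_lhs => rw [← bas.sum_repr (a j)]
    rw [map_sum]
    refine Finset.sum_congr rfl fun b _ => ?_
    rw [map_smul, hb, smul_eq_mul, mul_comm]
    rfl
  simp_rw [smul_smul]
  rw [← Finset.sum_smul, h3]

/-- evaluation of `tR` -/
theorem eval_tR (y : {j : Fin N // j ≠ e} → ℂ) (bas : Module.Basis B ℂ (Fin m → ℂ))
    (hb : ∀ b : B, bas b = a b) (φ : (Fin m → ℂ) →ₗ[ℂ] ℂ)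
    (h : ∀ b ∈ B, eval y (Y e b) = φ (a b)) (w : Fin m → ℂ) : eval y (tR e bas w) = φ w := by
  have h1 : (MvPolynomial.aeval y : PR e →ₐ[ℂ] ℂ).toLinearMap ∘ₗ tR e bas = φ := by
    refine bas.ext fun b => ?_
    rw [LinearMap.comp_apply, hb b, tR_bas bas hb _ b.2, ← h b b.2]
    rfl
  rw [← h1]
  rfl

theorem tR_ne (bas : Module.Basis B ℂ (Fin m → ℂ)) (he : e ∈ B) (w : Fin m → ℂ)
    (hw : w ≠ 0) : tR e bas w ≠ 0 := by
  classical
  intro h0
  have h1 : tR e bas w = ∑ b : B, bas.repr w b • Y e b := by
    rw [tR, Module.Basis.constr_apply_fintype]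
    rfl
  have h2 : ∀ y : {j : Fin N // j ≠ e} → ℂ, ∑ b : B, bas.repr w b * eval y (Y e b) = 0 := by
    intro y
    have h3 := congrArg (eval y) h1
    rw [h0, map_zero, map_sum] at h3
    rw [h3]
    refine Finset.sum_congr rfl fun b _ => ?_
    rw [smul_eval]
  have hY : ∀ (y : {j : Fin N // j ≠ e} → ℂ) (b : Fin N), eval y (Y e b) =
      if h : b = e then 1 else y ⟨b, h⟩ := by
    intro y b
    unfold Y
    split_ifs with h
    · rw [map_one]
    · rw [eval_X]
  have h4 : bas.repr w ⟨e, he⟩ = 0 := by
    have h5 := h2 0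
    rw [Finset.sum_eq_single ⟨e, he⟩] at h5
    · rw [hY, dif_pos rfl, mul_one] at h5
      exact h5
    · intro b _ hb
      have : (b : Fin N) ≠ e := fun h => hb (Subtype.ext h)
      rw [hY, dif_neg this]
      simp
    · intro h
      exact absurd (Finset.mem_univ _) h
  have h6 : ∀ b : B, bas.repr w b = 0 := by
    intro b
    by_cases hbe : (b : Fin N) = e
    · have : b = ⟨e, he⟩ := Subtype.ext hbe
      rw [this]
      exact h4
    · have h5 := h2 (Pi.single ⟨b, hbe⟩ 1)
      rw [Finset.sum_eq_single b] at h5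
      · rw [hY, dif_neg hbe, Pi.single_eq_same, mul_one] at h5
        exact h5
      · intro b' _ hb'
        by_cases h7 : (b' : Fin N) = e
        · have : b' = ⟨e, he⟩ := Subtype.ext h7
          rw [this, h4, zero_mul]
        · rw [hY, dif_neg h7, Pi.single_eq_of_ne, mul_zero]
          intro h8
          exact hb' (Subtype.ext (Subtype.mk.inj h8))
      · intro h
        exact absurd (Finset.mem_univ _) h
  apply hw
  rw [← bas.sum_repr w]
  exact Finset.sum_eq_zero fun b _ => by rw [h6, zero_smul]

/-- the polynomials whose images are the `u i` -/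
noncomputable def uR (a : Fin N → Fin m → ℂ) (e : Fin N) (bas : Module.Basis B ℂ (Fin m → ℂ))
    (i : Fin N) : PR e := zR a e bas i * tR e bas (a i) ^ 2

theorem form_div (b : Fin m → ℂ) (t : Fin m → ℂ) (c : ℂ) :
    form b (fun j => t j / c) = form b t / c := by
  simp only [form, Finset.sum_div]
  exact Finset.sum_congr rfl fun j _ => by rw [mul_div_assoc]

/-- `form` as a linear map in the coefficient vector -/
noncomputable def formL (t : Fin m → ℂ) : (Fin m → ℂ) →ₗ[ℂ] ℂ where
  toFun w := form w t
  map_add' x y := by simp only [form, Pi.add_apply, add_mul, Finset.sum_add_distrib]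
  map_smul' c x := by
    simp only [form, Pi.smul_apply, smul_eq_mul, RingHom.id_apply, Finset.mul_sum, mul_assoc]

theorem formL_apply (t w : Fin m → ℂ) : formL t w = form w t := rfl

/-- every functional is a form -/
theorem exists_form (φ : (Fin m → ℂ) →ₗ[ℂ] ℂ) : ∃ t : Fin m → ℂ, ∀ w, form w t = φ w := by
  classical
  refine ⟨fun j => φ (Pi.single j 1), fun w => ?_⟩
  conv_rhs => rw [pi_eq_sum_univ' w, map_sum]
  refine Finset.sum_congr rfl fun j _ => ?_
  rw [map_smul, smul_eq_mul]

open Classical in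
theorem vanish_of_zero (bas : Module.Basis B ℂ (Fin m → ℂ)) (hb : ∀ b : B, bas b = a b)
    (he : e ∈ B) (G : MvPolynomial (Fin N) ℂ) (hG : aeval (uR a e bas) G = 0) :
    ∀ u ∈ critical a, eval u G = 0 := by
  rintro u ⟨t0, ht0, hu⟩
  set c := form (a e) t0 with hc
  have hc0 : c ≠ 0 := ht0 e
  set t1 : Fin m → ℂ := fun j => t0 j / c with ht1
  have h1 : ∀ i, form (a i) t1 = form (a i) t0 / c := fun i => form_div _ _ _
  have h1e : form (a e) t1 = 1 := by rw [h1, ← hc, div_self hc0]
  set z0 : Fin N → ℂ := fun i => u i / form (a i) t1 ^ 2 with hz0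
  have hrel : ∑ i, z0 i • a i = 0 := by
    funext j
    rw [Finset.sum_apply]
    have h2 : ∀ i, (z0 i • a i) j = c ^ 2 * (u i * a i j / form (a i) t0 ^ 2) := by
      intro i
      have h3 := ht0 i
      simp only [Pi.smul_apply, smul_eq_mul, hz0, h1]
      field_simp
    simp_rw [h2]
    rw [← Finset.mul_sum, hu j, mul_zero]
    rfl
  -- the point
  set y : {j : Fin N // j ≠ e} → ℂ := fun j => if (j : Fin N) ∈ B then form (a j) t1 else z0 j with hy
  have hYB : ∀ b ∈ B, eval y (Y e b) = formL t1 (a b) := by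
    intro b hbB
    unfold Y
    split_ifs with h
    · rw [map_one, formL_apply, h, h1e]
    · rw [eval_X, hy]
      simp only [hbB, if_true]
      rfl
  have hYn : ∀ i, i ∉ B → eval y (Y e i) = z0 i := by
    intro i hi
    have hie : i ≠ e := fun h => hi (h ▸ he)
    unfold Y
    rw [dif_neg hie, eval_X, hy]
    simp only [hi, if_false]
  have ht : ∀ w, eval y (tR e bas w) = form w t1 := fun w => eval_tR y bas hb (formL t1) hYB w
  have hz : ∀ i, eval y (zR a e bas i) = z0 i := by
    intro i
    unfold zR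
    split_ifs with h
    · rw [map_neg, map_sum]
      have h4 : ∀ j ∈ Finset.univ.filter (fun j => j ∉ B),
          eval y (bas.coord ⟨i, h⟩ (a j) • Y e j) = z0 j * bas.coord ⟨i, h⟩ (a j) := by
        intro j hj
        rw [smul_eval, hYn j (Finset.mem_filter.1 hj).2, mul_comm]
      rw [Finset.sum_congr rfl h4]
      have h5 := congrArg (bas.coord ⟨i, h⟩) hrel
      rw [map_zero, map_sum, split_sum (B := B)] at h5
      simp only [map_smul, smul_eq_mul] at h5
      rw [Finset.sum_eq_single ⟨i, h⟩] at h5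
      · have h6 : bas.coord ⟨i, h⟩ (a i) = 1 := by
          have := hb ⟨i, h⟩
          rw [Module.Basis.coord_apply, ← this, Module.Basis.repr_self, Finsupp.single_eq_same]
        rw [h6, mul_one] at h5
        rw [neg_eq_iff_add_eq_zero, add_comm]
        exact h5
      · intro b' _ hb'
        have h6 : bas.coord ⟨i, h⟩ (a b') = 0 := by
          rw [Module.Basis.coord_apply, ← hb b', Module.Basis.repr_self,
            Finsupp.single_eq_of_ne]
          exact fun h7 => hb' h7.symm
        rw [h6, mul_zero]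
      · intro h7
        exact absurd (Finset.mem_univ _) h7
    · exact hYn i h
  have huR : ∀ i, eval y (uR a e bas i) = u i := by
    intro i
    have h2 : form (a i) t1 ≠ 0 := by
      rw [h1]
      exact div_ne_zero (ht0 i) hc0
    rw [uR, map_mul, map_pow, ht, hz, hz0]
    simp only
    field_simp
  have h8 : eval y (aeval (uR a e bas) G) = eval u G := by
    have h9 : ∀ G : MvPolynomial (Fin N) ℂ, eval y (aeval (uR a e bas) G) = eval u G := by
      intro G
      have h10 : ((aeval y : PR e →ₐ[ℂ] ℂ).comp (aeval (uR a e bas))) = aeval u := by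
        refine MvPolynomial.algHom_ext fun i => ?_
        rw [AlgHom.comp_apply, aeval_X, aeval_X]
        exact huR i
      exact DFunLike.congr_fun h10 G
    exact h9 G
  rw [← h8, hG, map_zero]

theorem zero_of_vanish (bas : Module.Basis B ℂ (Fin m → ℂ)) (hb : ∀ b : B, bas b = a b)
    (he : e ∈ B) (ha : ∀ i, a i ≠ 0) (G : MvPolynomial (Fin N) ℂ)
    (hG : ∀ u ∈ critical a, eval u G = 0) : aeval (uR a e bas) G = 0 := by
  have h1 : aeval (uR a e bas) G * ∏ i, tR e bas (a i) = 0 := by
    refine MvPolynomial.funext fun y => ?_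
    rw [map_zero, map_mul, map_prod]
    by_cases h2 : ∃ i, eval y (tR e bas (a i)) = 0
    · obtain ⟨i, hi⟩ := h2
      rw [Finset.prod_eq_zero (Finset.mem_univ i) hi, mul_zero]
    · push Not at h2
      have h3 : eval y (aeval (uR a e bas) G) = 0 := by
        obtain ⟨t0, ht0⟩ := exists_form ((aeval y : PR e →ₐ[ℂ] ℂ).toLinearMap ∘ₗ tR e bas)
        have ht : ∀ w, form w t0 = eval y (tR e bas w) := ht0
        have h4 : (fun i => eval y (uR a e bas i)) ∈ critical a := by
          refine ⟨t0, fun i => by rw [ht]; exact h2 i, fun j => ?_⟩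
          have h5 := congrArg (eval y) (rel_R (e := e) bas hb (LinearMap.proj j))
          rw [map_zero, map_sum] at h5
          rw [← h5]
          refine Finset.sum_congr rfl fun i _ => ?_
          have h6 := h2 i
          show eval y (uR a e bas i) * a i j / form (a i) t0 ^ 2 = _
          rw [ht, uR, map_mul, map_pow, smul_eval, LinearMap.proj_apply]
          field_simp
        have h7 := hG _ h4
        rw [← h7]
        have h10 : ((aeval y : PR e →ₐ[ℂ] ℂ).comp (aeval (uR a e bas))) =
            aeval (fun i => eval y (uR a e bas i)) := by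
          refine MvPolynomial.algHom_ext fun i => ?_
          rw [AlgHom.comp_apply, aeval_X, aeval_X]
          rfl
        exact DFunLike.congr_fun h10 G
      rw [h3, zero_mul]
  rcases mul_eq_zero.1 h1 with h2 | h2
  · exact h2
  · rw [Finset.prod_eq_zero_iff] at h2
    obtain ⟨i, _, hi⟩ := h2
    exact absurd hi (tR_ne bas he _ (ha i))

end

theorem t_LINK : S_LINK := by
  classical
  intro N m a hsp ha e
  obtain ⟨B, -, heB, hspB, hli⟩ := exists_linearIndepOn_extension (K := ℂ) (v := a)
    (s := {e}) (t := Set.univ) (LinearIndepOn.singleton (ha e)) (Set.subset_univ _)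
  have he : e ∈ B := heB rfl
  have hspan : ⊤ ≤ Submodule.span ℂ (Set.range fun b : B => a b) := by
    rw [← hsp, Submodule.span_le]
    have h1 : Set.range (fun b : B => a b) = a '' B := by
      ext x
      simp
    rw [h1, ← Set.image_univ]
    exact hspB
  let bas : Module.Basis B ℂ (Fin m → ℂ) := Module.Basis.mk hli hspan
  have hb : ∀ b : B, bas b = a b := fun b => Module.Basis.mk_apply hli hspan b
  let κ := FractionRing (PR e)
  have hinj : Function.Injective (algebraMap (PR e) κ) := IsFractionRing.injective (PR e) κ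
  let t : (Fin m → ℂ) →ₗ[ℂ] κ := (IsScalarTower.toAlgHom ℂ (PR e) κ).toLinearMap ∘ₗ tR e bas
  have ht : ∀ w, t w = algebraMap (PR e) κ (tR e bas w) := fun w => rfl
  let z : Fin N → κ := fun i => algebraMap (PR e) κ (zR a e bas i)
  have huu : ∀ i, uu a t z i = algebraMap (PR e) κ (uR a e bas i) := by
    intro i
    rw [uu, uR, map_mul, map_pow]
    rfl
  refine ⟨κ, inferInstance, inferInstance, t, z, ⟨Finset.mem_univ e, ?_, ?_, ?_, ?_, ?_⟩, ?_⟩
  · rw [Finset.coe_univ, Set.image_univ]
    exact hsp
  · rw [ht, tR_bas bas hb e he, Y, dif_pos rfl, map_one]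
  · intro ψ
    have h1 := congrArg (algebraMap (PR e) κ) (rel_R (e := e) bas hb ψ)
    rw [map_zero, map_sum] at h1
    rw [← h1]
    refine Finset.sum_congr rfl fun i _ => ?_
    exact (map_smul (IsScalarTower.toAlgHom ℂ (PR e) κ) (ψ (a i)) (zR a e bas i)).symm
  · set M := IntermediateField.adjoin ℂ ((fun i => t (a i)) '' ((Finset.univ : Finset (Fin N)) : Set (Fin N)) ∪
      z '' ((Finset.univ : Finset (Fin N)) : Set (Fin N))) with hM
    have h1 : ∀ j : {j : Fin N // j ≠ e}, algebraMap (PR e) κ (X j) ∈ M := by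
      intro j
      by_cases hj : (j : Fin N) ∈ B
      · have h2 : algebraMap (PR e) κ (X j) = t (a j) := by
          rw [ht, tR_bas bas hb j hj, Y, dif_neg j.2]
        rw [h2]
        exact IntermediateField.subset_adjoin _ _ (Or.inl ⟨j, by simp, rfl⟩)
      · have h2 : algebraMap (PR e) κ (X j) = z j := by
          show _ = algebraMap (PR e) κ (zR a e bas j)
          rw [zR, dif_neg hj, Y, dif_neg j.2]
        rw [h2]
        exact IntermediateField.subset_adjoin _ _ (Or.inr ⟨j, by simp, rfl⟩)
    have h3 : ∀ p : PR e, algebraMap (PR e) κ p ∈ M := by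
      intro p
      induction p using MvPolynomial.induction_on with
      | C c =>
        have : algebraMap (PR e) κ (C c) = algebraMap ℂ κ c :=
          (IsScalarTower.algebraMap_apply ℂ (PR e) κ c).symm
        rw [this]
        exact M.algebraMap_mem c
      | add p q hp hq => rw [map_add]; exact M.add_mem hp hq
      | mul_X p j hp => rw [map_mul]; exact M.mul_mem hp (h1 j)
    rw [eq_top_iff]
    intro x _
    obtain ⟨p, q, _, rfl⟩ := IsFractionRing.div_surjective (A := PR e) x
    exact M.div_mem (h3 p) (h3 q)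
  · have h1 : IsTranscendenceBasis ℂ (algebraMap (PR e) κ ∘ (X : {j : Fin N // j ≠ e} → PR e)) := by
      have h2 : Algebra.IsAlgebraic (PR e) κ := IsLocalization.isAlgebraic _ (nonZeroDivisors (PR e))
      exact (IsTranscendenceBasis.mvPolynomial _ ℂ).algebraMap_comp
    rw [← h1.cardinalMk_eq_trdeg, Cardinal.mk_fintype, Fintype.card_subtype_compl,
      Fintype.card_subtype_eq]
    have hN : 1 ≤ N := by
      have := e.pos
      omega
    rw [Finset.card_univ, Fintype.card_fin]
    have : ((N - 1 : ℕ) : Cardinal) + 1 = ((N - 1 + 1 : ℕ) : Cardinal) := by push_cast; rfl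
    rw [this, Nat.sub_add_cancel hN]
  · intro G
    have h1 : aeval (fun i => uu a t z i) G = algebraMap (PR e) κ (aeval (uR a e bas) G) := by
      have h10 : ((IsScalarTower.toAlgHom ℂ (PR e) κ).comp (aeval (uR a e bas))) =
          aeval (fun i => uu a t z i) := by
        refine MvPolynomial.algHom_ext fun i => ?_
        rw [AlgHom.comp_apply, aeval_X, aeval_X, huu]
        rfl
      exact (DFunLike.congr_fun h10 G).symm
    rw [h1, map_eq_zero_iff _ hinj]
    exact ⟨zero_of_vanish bas hb he ha G, vanish_of_zero bas hb he G⟩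

end Pool.Agent.U49.RD
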